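import Pool.Agent.R866.UD.Field

/-!
# The chromatic number of the unit distance graph on `ℚ(√3, √11)²` is `4`

Full answer to Q2 of MP_52ffe4_co.

Upper bound: `K = ℚ(√3, √11)` embeds in `ℚ₂(√3)` (because `33` is a square in `ℚ₂`), in which
`x² + y² = 1` forces the two coordinates `x + y/√3` and `2y/√3` to be integral with residues not
both `0`; colouring by the residues of (a choice of representative of) these coordinates is a proper
`4`-colouring.  Lower bound: the Moser spindle has its vertices in `K × K`.
-/

namespace Pool.Agent.Results.MP_52ffe4_co.ChromaticFour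

/-- The field `K = ℚ(√3, √11)`, a subfield of `ℝ`. -/
noncomputable abbrev K : IntermediateField ℚ ℝ :=
  IntermediateField.adjoin ℚ {Real.sqrt 3, Real.sqrt 11}

/-- The unit distance graph `G_K` on `K × K ⊂ ℝ²`. -/
noncomputable def unitDistanceGraph : SimpleGraph (K × K) where
  Adj p q := ((p.1 : ℝ) - (q.1 : ℝ)) ^ 2 + ((p.2 : ℝ) - (q.2 : ℝ)) ^ 2 = 1
  symm := ⟨by
    intro p q h
    rw [← h]; ring⟩
  loopless := ⟨by
    intro p h
    simp at h⟩

/-- **Q2 of MP_52ffe4_co.** The chromatic number of the unit distance graph on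
`ℚ(√3, √11) × ℚ(√3, √11)` is exactly `4`. -/
theorem result : unitDistanceGraph.chromaticNumber = 4 :=
  Pool.Agent.R866.UD.chi_eq

end Pool.Agent.Results.MP_52ffe4_co.ChromaticFour
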